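import Pool.Agent.Helper23.EC.DGoalsM

/-! Packet M2' of MP_ecc237, Part D (helper23). -/

set_option autoImplicit false

open MeasureTheory Filter Topology Set

namespace Pool.Agent.Helper86.EC.D_M2p

open EC237

theorem pt (K L x x' D : ℝ) (hK : 0 ≤ K) (hL : 0 ≤ L) (hx : 0 < x) (hx' : 0 < x') (hD : 0 ≤ D)
    (h1 : D ≤ K * L / (x * x')) (h2 : D ≤ K / x + K / x') :
    D ≤ K * Real.sqrt L * (1 / (x * Real.sqrt x) + 1 / (x' * Real.sqrt x')) := by
  set a : ℝ := 1 / Real.sqrt x with ha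
  set b : ℝ := 1 / Real.sqrt x' with hb
  have sx : 0 < Real.sqrt x := Real.sqrt_pos.2 hx
  have sx' : 0 < Real.sqrt x' := Real.sqrt_pos.2 hx'
  have ha0 : 0 < a := by rw [ha]; positivity
  have hb0 : 0 < b := by rw [hb]; positivity
  have ha2 : a ^ 2 = 1 / x := by
    rw [ha, div_pow, one_pow, Real.sq_sqrt hx.le]
  have hb2 : b ^ 2 = 1 / x' := by
    rw [hb, div_pow, one_pow, Real.sq_sqrt hx'.le]
  have ha3 : 1 / (x * Real.sqrt x) = a ^ 3 := by
    have : a ^ 3 = a ^ 2 * a := by ring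
    rw [this, ha2, ha]
    field_simp
  have hb3 : 1 / (x' * Real.sqrt x') = b ^ 3 := by
    have : b ^ 3 = b ^ 2 * b := by ring
    rw [this, hb2, hb]
    field_simp
  rw [ha3, hb3]
  have h1' : D ≤ K * L * (a ^ 2 * b ^ 2) := by
    rw [ha2, hb2]
    calc D ≤ K * L / (x * x') := h1
      _ = K * L * (1 / x * (1 / x')) := by field_simp
  have h2' : D ≤ K * (a ^ 2 + b ^ 2) := by
    rw [ha2, hb2]
    calc D ≤ K / x + K / x' := h2
      _ = K * (1 / x + 1 / x') := by ring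
  have hsq : D ^ 2 ≤ (K * Real.sqrt L * (a * b * (a + b))) ^ 2 := by
    have e1 : D * D ≤ (K * L * (a ^ 2 * b ^ 2)) * (K * (a ^ 2 + b ^ 2)) :=
      mul_le_mul h1' h2' hD (by positivity)
    have e2 : (K * Real.sqrt L * (a * b * (a + b))) ^ 2 =
        K ^ 2 * (Real.sqrt L ^ 2) * (a ^ 2 * b ^ 2 * (a + b) ^ 2) := by ring
    rw [e2, Real.sq_sqrt hL]
    have e3 : a ^ 2 + b ^ 2 ≤ (a + b) ^ 2 := by nlinarith
    calc D ^ 2 = D * D := by ring
      _ ≤ (K * L * (a ^ 2 * b ^ 2)) * (K * (a ^ 2 + b ^ 2)) := e1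
      _ = K ^ 2 * L * (a ^ 2 * b ^ 2 * (a ^ 2 + b ^ 2)) := by ring
      _ ≤ K ^ 2 * L * (a ^ 2 * b ^ 2 * (a + b) ^ 2) := by
        refine mul_le_mul_of_nonneg_left ?_ (by positivity)
        exact mul_le_mul_of_nonneg_left e3 (by positivity)
  have h3 : D ≤ K * Real.sqrt L * (a * b * (a + b)) := by
    have := abs_le_of_sq_le_sq hsq (by positivity)
    exact (le_abs_self D).trans this
  refine h3.trans ?_
  refine mul_le_mul_of_nonneg_left ?_ (by positivity)
  nlinarith [mul_nonneg (add_nonneg ha0.le hb0.le) (sq_nonneg (a - b))]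

theorem g_eq (x : ℝ) (hx : 0 < x) : 1 / (x * Real.sqrt x) = x ^ (-(3 / 2) : ℝ) := by
  rw [Real.rpow_neg hx.le, show (3 / 2 : ℝ) = 1 + 1 / 2 by norm_num, Real.rpow_add hx,
    Real.rpow_one, ← Real.sqrt_eq_rpow, one_div]

theorem summable_g : Summable (fun m : ℤ => 1 / ((1 + |(m:ℝ)|) * Real.sqrt (1 + |(m:ℝ)|))) := by
  have h1 : Summable (fun n : ℕ => 1 / ((1 + (n:ℝ)) * Real.sqrt (1 + (n:ℝ)))) := by
    have h0 : Summable (fun n : ℕ => ((n:ℝ)) ^ (-(3 / 2) : ℝ)) :=
      Real.summable_nat_rpow.2 (by norm_num)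
    have h2 := (summable_nat_add_iff 1).2 h0
    refine h2.congr fun n => ?_
    rw [g_eq _ (by positivity)]
    push_cast
    rw [add_comm]
  refine Summable.of_nat_of_neg ?_ ?_
  · refine h1.congr fun n => ?_
    simp
  · refine h1.congr fun n => ?_
    simp

theorem thm (hN4 : EC237.N4) (hN7 : EC237.N7) (hN8 : EC237.N8) : EC237.M2' := by
  intro y hy c3 c4 a3 a4 h3 h4
  obtain ⟨C7, c7, hC7, -, H7⟩ := hN7 y hy
  obtain ⟨C8, hC8, H8⟩ := hN8 y hy
  set K : ℝ := max C7 C8 with hK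
  have hKpos : 0 < K := lt_of_lt_of_le hC7 (le_max_left _ _)
  set g : ℤ → ℝ := fun m => 1 / ((1 + |(m:ℝ)|) * Real.sqrt (1 + |(m:ℝ)|)) with hg
  have hgs : Summable g := summable_g
  have hg0 : ∀ m, 0 ≤ g m := fun m => by simp only [hg]; positivity
  set S : ℝ := ∑' m, g m with hSdef
  have hS1 : 0 < S := by
    have h0 : g 0 ≤ S := hgs.le_tsum 0 (fun m _ => hg0 m)
    have : g 0 = 1 := by simp [hg]
    linarith
  refine ⟨K * (S + S), by positivity, ?_⟩
  intro s hs
  have hpt : ∀ m : ℤ, ‖hS y c3 m a3 0 - hS y c4 (-s - m) a4 0‖ ≤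
      K * Real.sqrt (1 + |(s:ℝ)|) * (g m + g (m + s)) := by
    intro m
    by_cases hm : (m - c3) % 3 = 0
    · have hm' : (-s - m - c4) % 3 = 0 := by omega
      have e8 := H8 c3 m a3 c4 (-s - m) a4 h3 h4 hm hm'
      have e7 := (H7 c3 m a3 h3).1
      have e7' := (H7 c4 (-s - m) a4 h4).1
      have hcast : |((-s - m : ℤ) : ℝ)| = |((m + s : ℤ) : ℝ)| := by
        rw [← abs_neg]
        push_cast
        congr 1
        ring
      rw [hcast] at e8 e7'
      have hab : |(|(m:ℝ)| - |((m + s : ℤ) : ℝ)|)| ≤ |(s:ℝ)| := by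
        have h1 := abs_abs_sub_abs_le (m:ℝ) ((m + s : ℤ) : ℝ)
        refine h1.trans (le_of_eq ?_)
        rw [← abs_neg]
        push_cast
        congr 1
        ring
      simp only [hg]
      refine pt K (1 + |(s:ℝ)|) (1 + |(m:ℝ)|) (1 + |((m + s : ℤ) : ℝ)|) _ hKpos.le
        (by positivity) (by positivity) (by positivity) (norm_nonneg _) ?_ ?_
      · refine e8.trans ?_
        refine div_le_div_of_nonneg_right ?_ (by positivity)
        refine mul_le_mul (le_max_right _ _) (by linarith) (by positivity) hKpos.le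
      · refine (norm_sub_le _ _).trans ?_
        refine add_le_add (e7.trans ?_) (e7'.trans ?_)
        · exact div_le_div_of_nonneg_right (le_max_left _ _) (by positivity)
        · exact div_le_div_of_nonneg_right (le_max_left _ _) (by positivity)
    · have hm' : (-s - m - c4) % 3 ≠ 0 := by omega
      obtain ⟨-, -, -, -, -, -, -, -, -, -, -, hz⟩ := hN4 y hy c3 m a3
      obtain ⟨-, -, -, -, -, -, -, -, -, -, -, hz'⟩ := hN4 y hy c4 (-s - m) a4
      rw [(hz hm 0).1, (hz' hm' 0).1, sub_zero, norm_zero]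
      have := hg0 m
      have := hg0 (m + s)
      positivity
  have hshift : Summable (fun m => g (m + s)) := (Equiv.addRight s).summable_iff.2 hgs
  have hshift' : ∑' m, g (m + s) = S := (Equiv.addRight s).tsum_eq g
  have hsum : Summable (fun m => K * Real.sqrt (1 + |(s:ℝ)|) * (g m + g (m + s))) :=
    (hgs.add hshift).mul_left _
  have hsumm : Summable (fun m : ℤ => ‖hS y c3 m a3 0 - hS y c4 (-s - m) a4 0‖) :=
    Summable.of_nonneg_of_le (fun m => norm_nonneg _) hpt hsum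
  refine ⟨hsumm, ?_⟩
  refine (hsumm.tsum_le_tsum hpt hsum).trans (le_of_eq ?_)
  rw [tsum_mul_left, hgs.tsum_add hshift, hshift', ← Real.sqrt_eq_rpow]
  ring

end Pool.Agent.Helper86.EC.D_M2p
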