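import Pool.Agent.Helper38.EC.Goals

/-! Packet KB of MP_ecc237 Part I (helper38). -/

set_option autoImplicit false

open MeasureTheory Filter Topology Set Complex

namespace Pool.Agent.Helper86.EC.I_KB

open EC237 EC237.PI

theorem ell_real (t : ℝ) (ht : 0 < t) : ell (t : ℂ) = (Ld t : ℂ) := by
  unfold ell Ld
  have h1 : ((t : ℂ) / 2) = ((t / 2 : ℝ) : ℂ) := by push_cast; rfl
  rw [h1, ← Complex.ofReal_log (by positivity)]
  push_cast
  ring

theorem mem_slit (t : ℝ) (ht : 0 < t) : (t : ℂ) ∈ slitPlane := by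
  rw [Complex.mem_slitPlane_iff]
  left
  simpa using ht

/-- `Ld t * t ^ 2 → 0`. -/
theorem tendsto_Ld_mul : Tendsto (fun t : ℝ => |Ld t| * t ^ 2) (𝓝[>] 0) (𝓝 0) := by
  have h1 : Tendsto (fun t : ℝ => Real.log t * t) (𝓝[>] 0) (𝓝 0) := by
    have := tendsto_log_mul_rpow_nhdsGT_zero (r := 1) one_pos
    simpa using this
  have h0 : Tendsto (fun t : ℝ => t) (𝓝[>] (0:ℝ)) (𝓝 0) := tendsto_id.mono_left nhdsWithin_le_nhds
  have h2 : Tendsto (fun t : ℝ => -(Real.log t * t) * t +
      (Real.log 2 - Real.eulerMascheroniConstant) * (t * t)) (𝓝[>] 0) (𝓝 0) := by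
    have := (h1.neg.mul h0).add ((tendsto_const_nhds (x := Real.log 2 -
      Real.eulerMascheroniConstant)).mul (h0.mul h0))
    simpa using this
  have h3 : Tendsto (fun t : ℝ => |-(Real.log t * t) * t +
      (Real.log 2 - Real.eulerMascheroniConstant) * (t * t)|) (𝓝[>] 0) (𝓝 0) := by
    have := h2.abs
    simpa using this
  refine h3.congr' ?_
  filter_upwards [self_mem_nhdsWithin] with t ht
  have ht' : 0 < t := ht
  rw [← abs_of_nonneg (sq_nonneg t), ← abs_mul]
  congr 1
  unfold Ld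
  rw [Real.log_div ht'.ne' (by norm_num)]
  ring

/-- `Ld t → ∞`. -/
theorem tendsto_Ld : Tendsto Ld (𝓝[>] 0) atTop := by
  have h1 : Tendsto (fun t : ℝ => -Real.log t + (Real.log 2 - Real.eulerMascheroniConstant))
      (𝓝[>] 0) atTop := by
    refine Tendsto.atTop_add ?_ tendsto_const_nhds
    exact tendsto_neg_atBot_atTop.comp Real.tendsto_log_nhdsGT_zero
  refine h1.congr' ?_
  filter_upwards [self_mem_nhdsWithin] with t ht
  have ht' : 0 < t := ht
  unfold Ld
  rw [Real.log_div ht'.ne' (by norm_num)]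
  ring

theorem thm (sera : G_SERA) (serb : G_SERB) (wr : G_WR) (kd : G_KD) (k0 : G_K0) : G_KB := by
  obtain ⟨hI, hS, hIode, -⟩ := sera
  obtain ⟨hsm, hre⟩ := serb
  obtain ⟨hK, hW⟩ := wr
  obtain ⟨K1, hK1⟩ := kd
  -- real versions
  set i : ℝ → ℝ := fun t => (Ic (t : ℂ)).re with hi
  set ip : ℝ → ℝ := fun t => (deriv Ic (t : ℂ)).re with hip
  set k : ℝ → ℝ := fun t => (Kc (t : ℂ)).re with hk
  set kp : ℝ → ℝ := fun t => (deriv Kc (t : ℂ)).re with hkp
  have hIim : ∀ t : ℝ, (Ic (t : ℂ)).im = 0 := fun t => (hre t).1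
  have hSim : ∀ t : ℝ, (Sc (t : ℂ)).im = 0 := fun t => (hre t).2.1
  have hKim : ∀ t : ℝ, 0 < t → (Kc (t : ℂ)).im = 0 := by
    intro t ht
    unfold Kc
    rw [ell_real t ht, Complex.add_im, Complex.mul_im, hIim, hSim]
    simp
  have hkeq : ∀ t : ℝ, 0 < t → k t = Ld t * i t + (Sc (t : ℂ)).re := by
    intro t ht
    simp only [hk, hi]
    unfold Kc
    rw [ell_real t ht, Complex.add_re, Complex.mul_re, hIim]
    simp
  have di : ∀ t : ℝ, HasDerivAt i (ip t) t := fun t =>
    (hI (t : ℂ)).hasDerivAt.real_of_complex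
  have dk : ∀ t : ℝ, 0 < t → HasDerivAt k (kp t) t := fun t ht =>
    (hK (t : ℂ) (mem_slit t ht)).1.hasDerivAt.real_of_complex
  have dP : ∀ t : ℝ, HasDerivAt (fun s => s * ip s) (t * i t) t := by
    intro t
    have h := (hIode (t : ℂ)).real_of_complex
    have e1 : (fun x : ℝ => ((x : ℂ) * deriv Ic (x : ℂ)).re) = fun s => s * ip s := by
      funext s
      simp [hip, Complex.mul_re]
    have e2 : ((t : ℂ) * Ic (t : ℂ)).re = t * i t := by
      simp [hi, Complex.mul_re]
    rw [e1, e2] at h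
    exact h
  have dQ : ∀ t : ℝ, 0 < t → HasDerivAt (fun s => s * kp s) (t * k t) t := by
    intro t ht
    have h := (hK (t : ℂ) (mem_slit t ht)).2.real_of_complex
    have e1 : (fun x : ℝ => ((x : ℂ) * deriv Kc (x : ℂ)).re) = fun s => s * kp s := by
      funext s
      simp [hkp, Complex.mul_re]
    have e2 : ((t : ℂ) * Kc (t : ℂ)).re = t * k t := by
      simp [hk, Complex.mul_re]
    rw [e1, e2] at h
    exact h
  have hWr : ∀ t : ℝ, 0 < t → i t * (t * kp t) - k t * (t * ip t) = -1 := by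
    intro t ht
    have h := congrArg Complex.re (hW (t : ℂ) (mem_slit t ht))
    rw [Complex.sub_re, Complex.mul_re, Complex.mul_re, hIim, hKim t ht, zero_mul, zero_mul,
      sub_zero, sub_zero] at h
    have h2 : (-((t : ℂ))⁻¹).re = -t⁻¹ := by
      rw [← Complex.ofReal_inv, ← Complex.ofReal_neg, Complex.ofReal_re]
    rw [h2] at h
    have h3 : i t * kp t - k t * ip t = -t⁻¹ := h
    have h4 : i t * (t * kp t) - k t * (t * ip t) = t * (i t * kp t - k t * ip t) := by ring
    rw [h4, h3]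
    field_simp
  -- the difference
  set d : ℝ → ℝ := fun t => Kb t - k t with hd
  set D : ℝ → ℝ := fun t => -(t * K1 t) - t * kp t with hD
  have dd : ∀ t : ℝ, 0 < t → HasDerivAt d (-(K1 t) - kp t) t := fun t ht =>
    (hK1 t ht).1.sub (dk t ht)
  have dD : ∀ t : ℝ, 0 < t → HasDerivAt D (t * d t) t := by
    intro t ht
    have h := (hK1 t ht).2.neg.sub (dQ t ht)
    have e : -(-(t * Kb t)) - t * k t = t * d t := by
      simp only [hd]; ring
    rw [e] at h
    exact h
  -- constants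
  have hc1 : ∃ c : ℝ, ∀ t ∈ Ioi (0:ℝ), d t * (t * ip t) - i t * D t = c := by
    refine IsOpen.exists_is_const_of_deriv_eq_zero (s := Ioi (0:ℝ)) isOpen_Ioi isPreconnected_Ioi
      (f := fun t => d t * (t * ip t) - i t * D t) ?_ ?_
    · intro t ht
      exact (((dd t ht).mul (dP t)).sub ((di t).mul (dD t ht))).differentiableAt.differentiableWithinAt
    · intro t ht
      have h := ((dd t ht).mul (dP t)).sub ((di t).mul (dD t ht))
      have h2 := h.deriv
      change deriv (fun t => d t * (t * ip t) - i t * D t) t = 0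
      have e : deriv (fun t => d t * (t * ip t) - i t * D t) t =
        (-(K1 t) - kp t) * (t * ip t) + d t * (t * i t) - (ip t * D t + i t * (t * d t)) := h2
      rw [e]
      simp only [hD]
      ring
  have hc2 : ∃ c : ℝ, ∀ t ∈ Ioi (0:ℝ), d t * (t * kp t) - k t * D t = c := by
    refine IsOpen.exists_is_const_of_deriv_eq_zero (s := Ioi (0:ℝ)) isOpen_Ioi isPreconnected_Ioi
      (f := fun t => d t * (t * kp t) - k t * D t) ?_ ?_
    · intro t ht
      exact (((dd t ht).mul (dQ t ht)).sub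
        ((dk t ht).mul (dD t ht))).differentiableAt.differentiableWithinAt
    · intro t ht
      have h := ((dd t ht).mul (dQ t ht)).sub ((dk t ht).mul (dD t ht))
      have h2 := h.deriv
      change deriv (fun t => d t * (t * kp t) - k t * D t) t = 0
      have e : deriv (fun t => d t * (t * kp t) - k t * D t) t =
        (-(K1 t) - kp t) * (t * kp t) + d t * (t * k t) - (kp t * D t + k t * (t * d t)) := h2
      rw [e]
      simp only [hD]
      ring
  obtain ⟨c1, hc1⟩ := hc1
  obtain ⟨c2, hc2⟩ := hc2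
  have hdc : ∀ t : ℝ, 0 < t → d t = c1 * k t - c2 * i t := by
    intro t ht
    have e1 := hc1 t ht
    have e2 := hc2 t ht
    have e3 := hWr t ht
    have : c1 * k t - c2 * i t = d t * (-(i t * (t * kp t) - k t * (t * ip t))) := by
      rw [← e1, ← e2]; ring
    rw [this, e3]
    ring
  -- limits at 0
  have hev : ∀ᶠ t : ℝ in 𝓝[>] 0, 0 < t ∧ t ≤ 1 := by
    have : Ioc (0:ℝ) 1 ∈ 𝓝[>] (0:ℝ) := Ioc_mem_nhdsGT one_pos
    filter_upwards [this] with t ht
    exact ⟨ht.1, ht.2⟩
  have hbound : ∀ t : ℝ, 0 < t → t ≤ 1 → |i t - 1| ≤ t ^ 2 ∧ |(Sc (t : ℂ)).re| ≤ t ^ 2 := by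
    intro t ht ht1
    have hn : ‖(t : ℂ)‖ = t := by
      rw [Complex.norm_real, Real.norm_eq_abs, abs_of_pos ht]
    obtain ⟨h1, h2⟩ := hsm (t : ℂ) (by rw [hn]; exact ht1)
    rw [hn] at h1 h2
    constructor
    · have h3 := Complex.abs_re_le_norm (Ic (t : ℂ) - 1)
      rw [Complex.sub_re, Complex.one_re] at h3
      exact h3.trans h1
    · exact (Complex.abs_re_le_norm _).trans h2
  have ht0 : Tendsto (fun t : ℝ => t) (𝓝[>] (0:ℝ)) (𝓝 0) := tendsto_id.mono_left nhdsWithin_le_nhds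
  have ht2 : Tendsto (fun t : ℝ => t ^ 2) (𝓝[>] (0:ℝ)) (𝓝 0) := by
    have := ht0.pow 2
    simpa using this
  have li : Tendsto i (𝓝[>] 0) (𝓝 1) := by
    have h1 : Tendsto (fun t => i t - 1) (𝓝[>] 0) (𝓝 0) := by
      refine squeeze_zero_norm' ?_ ht2
      filter_upwards [hev] with t ht
      rw [Real.norm_eq_abs]
      exact (hbound t ht.1 ht.2).1
    have := h1.add_const 1
    simpa using this
  have lkL : Tendsto (fun t => k t - Ld t) (𝓝[>] 0) (𝓝 0) := by
    have h1 : Tendsto (fun t : ℝ => |Ld t| * t ^ 2 + t ^ 2) (𝓝[>] 0) (𝓝 0) := by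
      have := tendsto_Ld_mul.add ht2
      simpa using this
    refine squeeze_zero_norm' ?_ h1
    filter_upwards [hev] with t ht
    obtain ⟨e1, e2⟩ := hbound t ht.1 ht.2
    rw [Real.norm_eq_abs, hkeq t ht.1]
    have e3 : Ld t * i t + (Sc (t : ℂ)).re - Ld t = Ld t * (i t - 1) + (Sc (t : ℂ)).re := by ring
    rw [e3]
    refine (abs_add_le _ _).trans ?_
    rw [abs_mul]
    exact add_le_add (mul_le_mul_of_nonneg_left e1 (abs_nonneg _)) e2
  have ld : Tendsto d (𝓝[>] 0) (𝓝 0) := by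
    have h1 := k0.sub lkL
    rw [sub_zero] at h1
    refine h1.congr fun t => ?_
    simp only [hd]
    ring
  have lk : Tendsto k (𝓝[>] 0) atTop := by
    have h1 := tendsto_Ld.atTop_add lkL
    refine h1.congr fun t => ?_
    ring
  have hc1' : c1 = 0 := by
    have h1 : Tendsto (fun t => (d t + c2 * i t) / k t) (𝓝[>] 0) (𝓝 0) :=
      (ld.add (li.const_mul c2)).div_atTop lk
    have h2 : Tendsto (fun t => (d t + c2 * i t) / k t) (𝓝[>] 0) (𝓝 c1) := by
      refine (tendsto_const_nhds (x := c1)).congr' ?_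
      filter_upwards [hev, lk.eventually_gt_atTop 0] with t ht hkt
      rw [hdc t ht.1]
      field_simp
      ring
    exact tendsto_nhds_unique h2 h1
  have hc2' : c2 = 0 := by
    have h1 : Tendsto (fun t => -(c2 * i t)) (𝓝[>] 0) (𝓝 0) := by
      refine ld.congr' ?_
      filter_upwards [hev] with t ht
      rw [hdc t ht.1, hc1']
      ring
    have h2 := (li.const_mul c2).neg
    have h3 := tendsto_nhds_unique h1 h2
    linarith
  intro t ht
  have h1 := hdc t ht
  rw [hc1', hc2', zero_mul, zero_mul, sub_zero] at h1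
  have h2 : k t = Kb t := by
    simp only [hd] at h1
    linarith
  apply Complex.ext
  · rw [Complex.ofReal_re, ← h2]
  · rw [Complex.ofReal_im]
    exact hKim t ht

end Pool.Agent.Helper86.EC.I_KB
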